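import Pool.Agent.Helper39.Uct.Goals3

/-!
# Packet EE: the projection to the unit fibre, finite groups, and the induction for `PZ` groups
-/

open scoped ComplexOrder

namespace Pool.Agent.Helper50.Uct2

open Pool.Agent.Helper39.Uct Pool.Agent.Helper39.Uct.Fib

section gen

variable {Q : Type} [Group Q] {B : Type} [NonUnitalCStarAlgebra B] (G : Fib Q B)

open Classical in
/-- The sum map on finitely supported families. -/
noncomputable def sumL : (Π₀ q, G.fib q) →ₗ[ℂ] B :=
  DFinsupp.lsum ℕ (fun q => (G.fib q).subtype)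

open Classical in
theorem sumL_apply (f : Π₀ q, G.fib q) :
    sumL G f = ∑ q ∈ insert 1 f.support, (f q : B) := by
  have h1 : sumL G f = ∑ q ∈ f.support, (f q : B) := by
    unfold sumL
    rw [DFinsupp.lsum_apply_apply, DFinsupp.sumAddHom_apply]
    rfl
  rw [h1]
  refine Finset.sum_subset (Finset.subset_insert _ _) ?_
  intro q _ hq
  have : f q = 0 := by simpa using hq
  rw [this]; rfl

theorem sumL_norm (hT : G.Top) (f : Π₀ q, G.fib q) : ‖(f 1 : B)‖ ≤ ‖sumL G f‖ := by
  classical
  rw [sumL_apply]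
  exact hT (insert 1 f.support) (fun q => (f q : B)) (fun q _ => (f q).2)
    (Finset.mem_insert_self _ _)

theorem range_sumL : LinearMap.range (sumL G) = ⨆ q, G.fib q := by
  classical
  rw [Submodule.iSup_eq_range_dfinsupp_lsum]
  rfl

theorem sumL_single (q : Q) (b : B) (hb : b ∈ G.fib q) :
    ∃ f : Π₀ q, G.fib q, sumL G f = b ∧ (q ≠ 1 → f 1 = 0) ∧ (q = 1 → (f 1 : B) = b) := by
  classical
  refine ⟨DFinsupp.single q ⟨b, hb⟩, ?_, ?_, ?_⟩
  · unfold sumL
    rw [DFinsupp.lsum_single]; rfl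
  · intro hq
    rw [DFinsupp.single_eq_of_ne]
    exact fun h => hq h.symm
  · intro hq
    subst hq
    rw [DFinsupp.single_eq_same]

/-- The projection on the algebraic sum. -/
theorem exists_E0 (hT : G.Top) : ∃ E0 : (⨆ q, G.fib q : Submodule ℂ B) →ₗ[ℂ] B,
    (∀ v, ‖E0 v‖ ≤ ‖(v : B)‖) ∧ (∀ v, E0 v ∈ G.fib 1) ∧
    ∀ (f : Π₀ q, G.fib q) (v : (⨆ q, G.fib q : Submodule ℂ B)), sumL G f = v →
      E0 v = (f 1 : B) := by
  have hmem : ∀ f, sumL G f ∈ (⨆ q, G.fib q : Submodule ℂ B) := by
    intro f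
    rw [← range_sumL]
    exact ⟨f, rfl⟩
  let S' : (Π₀ q, G.fib q) →ₗ[ℂ] (⨆ q, G.fib q : Submodule ℂ B) :=
    (sumL G).codRestrict _ hmem
  have hS' : Function.Surjective S' := by
    rintro ⟨v, hv⟩
    rw [← range_sumL] at hv
    obtain ⟨f, hf⟩ := hv
    exact ⟨f, Subtype.ext hf⟩
  obtain ⟨g, hg⟩ := S'.exists_rightInverse_of_surjective (LinearMap.range_eq_top.mpr hS')
  have hg' : ∀ v, sumL G (g v) = v := fun v => by
    have := congrArg Subtype.val (LinearMap.congr_fun hg v)
    exact this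
  refine ⟨(G.fib 1).subtype ∘ₗ (DFinsupp.lapply (R := ℂ) (M := fun q => G.fib q) 1) ∘ₗ g,
    ?_, ?_, ?_⟩
  · intro v
    have h := sumL_norm G hT (g v)
    rw [hg'] at h
    exact h
  · intro v
    exact ((g v) 1).2
  · intro f v hv
    have h := sumL_norm G hT (g v - f)
    rw [map_sub, hg', hv, sub_self, norm_zero] at h
    have h2 : (((g v - f) 1 : G.fib 1) : B) = 0 := norm_le_zero_iff.mp h
    rw [DFinsupp.sub_apply, Submodule.coe_sub] at h2
    exact sub_eq_zero.mp h2

end gen

/-- Packet EE. -/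
theorem t_EE : S_EE := by
  intro Q _ B _ G hT
  obtain ⟨E0, hn, hm, hE⟩ := exists_E0 G hT
  let V : Submodule ℂ B := ⨆ q, G.fib q
  let E0c : V →L[ℂ] B := E0.mkContinuous 1 (fun v => by rw [one_mul]; exact hn v)
  have hd : Dense (V : Set B) := Submodule.dense_iff_topologicalClosure_eq_top.mpr G.dense
  have hdr : DenseRange (V.subtypeL : V → B) := hd.denseRange_val
  have hui : IsUniformInducing (V.subtypeL : V → B) :=
    isUniformEmbedding_subtype_val.isUniformInducing
  let E : B →L[ℂ] B := E0c.extend V.subtypeL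
  have hEV : ∀ v : V, E v = E0 v := fun v => E0c.extend_eq hdr hui v
  refine ⟨E, ⟨?_, ?_, ?_⟩, ?_⟩
  · intro b hb
    obtain ⟨f, hf, -, hf1⟩ := sumL_single G 1 b hb
    have hbV : b ∈ V := (le_iSup G.fib 1) hb
    have h := hEV ⟨b, hbV⟩
    rw [hE f ⟨b, hbV⟩ hf, hf1 rfl] at h
    exact h
  · intro q hq b hb
    obtain ⟨f, hf, hf0, -⟩ := sumL_single G q b hb
    have hbV : b ∈ V := (le_iSup G.fib q) hb
    have h := hEV ⟨b, hbV⟩
    rw [hE f ⟨b, hbV⟩ hf, hf0 hq] at h
    exact h
  · intro b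
    refine isClosed_property hdr (p := fun b => ‖E b‖ ≤ ‖b‖)
      (isClosed_le (E.continuous.norm) continuous_norm) (fun v => ?_) b
    change ‖E (v : B)‖ ≤ ‖(v : B)‖
    rw [hEV]; exact hn v
  · intro b
    refine isClosed_property hdr (p := fun b => E b ∈ G.fib 1)
      ((G.closed 1).preimage E.continuous) (fun v => ?_) b
    change E (v : B) ∈ G.fib 1
    rw [hEV]; exact hm v

section fin

variable {Q : Type} [Group Q] {B : Type} [NonUnitalCStarAlgebra B] (G : Fib Q B)

/-- Every fibre component is bounded by the norm of the sum. -/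
theorem comp_norm (hT : G.Top) [Fintype Q] (b : Q → B) (hb : ∀ q, b q ∈ G.fib q) (q : Q) :
    ‖b q‖ ≤ ‖∑ p, b p‖ := by
  classical
  have h := hT Finset.univ (fun r => star (b q) * b (q * r)) (fun r _ => by
    have := G.mul_mem _ _ _ _ (G.star_mem q _ (hb q)) (hb (q * r))
    rwa [inv_mul_cancel_left] at this) (Finset.mem_univ _)
  have h2 : ∑ r, star (b q) * b (q * r) = star (b q) * ∑ p, b p := by
    rw [Finset.mul_sum]
    exact Equiv.sum_comp (Equiv.mulLeft q) (fun p => star (b q) * b p)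
  rw [h2] at h
  simp only [mul_one] at h
  have h3 : ‖b q‖ * ‖b q‖ ≤ ‖b q‖ * ‖∑ p, b p‖ := by
    rw [← CStarRing.norm_star_mul_self]
    refine h.trans ((norm_mul_le _ _).trans ?_)
    rw [norm_star]
  by_cases h0 : ‖b q‖ = 0
  · rw [h0]; exact norm_nonneg _
  · exact le_of_mul_le_mul_left h3 (lt_of_le_of_ne (norm_nonneg _) (Ne.symm h0))

/-- The sum map for a finite group. -/
noncomputable def sumF [Fintype Q] : (Π q, G.fib q) →L[ℂ] B :=
  ∑ q, (G.fib q).subtypeL ∘L ContinuousLinearMap.proj q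

theorem sumF_apply [Fintype Q] (f : Π q, G.fib q) : sumF G f = ∑ q, (f q : B) := by
  simp [sumF]

theorem surj_sumF (hT : G.Top) [Fintype Q] (b : B) : ∃ f : Π q, G.fib q, ∑ q, (f q : B) = b := by
  classical
  have : ∀ q, CompleteSpace (G.fib q) := fun q => (G.closed q).completeSpace_coe
  have hanti : AntilipschitzWith 1 (sumF G) := by
    refine ContinuousLinearMap.antilipschitz_of_bound _ (fun f => ?_)
    rw [NNReal.coe_one, one_mul, pi_norm_le_iff_of_nonneg (norm_nonneg _)]
    intro q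
    rw [sumF_apply]
    exact comp_norm G hT (fun q => (f q : B)) (fun q => (f q).2) q
  have hcl : IsClosed (Set.range (sumF G)) := hanti.isClosed_range (sumF G).uniformContinuous
  have hsub : (⨆ q, G.fib q : Submodule ℂ B) ≤ LinearMap.range (sumF G).toLinearMap := by
    refine iSup_le (fun q x hx => ?_)
    refine ⟨Pi.single q ⟨x, hx⟩, ?_⟩
    change sumF G _ = x
    rw [sumF_apply, Finset.sum_eq_single q]
    · rw [Pi.single_eq_same]
    · intro p _ hp
      rw [Pi.single_eq_of_ne hp]; rfl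
    · intro h; exact absurd (Finset.mem_univ q) h
  have htop : (⨆ q, G.fib q : Submodule ℂ B).topologicalClosure ≤
      LinearMap.range (sumF G).toLinearMap := by
    refine Submodule.topologicalClosure_minimal _ hsub ?_
    convert hcl using 1
    exact LinearMap.coe_range _
  rw [G.dense] at htop
  obtain ⟨f, hf⟩ := htop (Submodule.mem_top (x := b))
  refine ⟨f, ?_⟩
  rw [← sumF_apply]
  exact hf

end fin

/-- Packet FEF. -/
theorem t_FEF : S_FEF := by
  intro Q _ _ B _ G hT E hE b hb
  classical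
  have : Fintype Q := Fintype.ofFinite Q
  obtain ⟨hE1, hE0, hEn⟩ := hE
  obtain ⟨f, rfl⟩ := surj_sumF G hT b
  have hsum : E (star (∑ q, (f q : B)) * ∑ q, (f q : B)) = ∑ q, star (f q : B) * (f q : B) := by
    rw [star_sum, Finset.sum_mul_sum, map_sum]
    refine Finset.sum_congr rfl (fun p _ => ?_)
    rw [map_sum, Finset.sum_eq_single p]
    · refine hE1 _ ?_
      have := G.mul_mem _ _ _ _ (G.star_mem p _ (f p).2) (f p).2
      rwa [inv_mul_cancel] at this
    · intro q _ hq
      refine hE0 (p⁻¹ * q) ?_ _ (G.mul_mem _ _ _ _ (G.star_mem p _ (f p).2) (f q).2)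
      intro h
      exact hq (inv_mul_eq_one.mp h).symm
    · intro h; exact absurd (Finset.mem_univ p) h
  rw [hsum] at hb
  let _ : PartialOrder B := CStarAlgebra.spectralOrder B
  have : StarOrderedRing B := CStarAlgebra.spectralOrderedRing B
  have h0 := (Finset.sum_eq_zero_iff_of_nonneg
    (fun q _ => star_mul_self_nonneg (f q : B))).mp hb
  refine Finset.sum_eq_zero (fun q hq => ?_)
  exact CStarRing.star_mul_self_eq_zero_iff _ |>.mp (h0 q hq)

/-- The property proved by induction. -/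
def PP (Q : Type) [Group Q] : Prop :=
  ∀ (B : Type) [NonUnitalCStarAlgebra B] (G : Fib Q B), G.Top → Faith G ∧
    ∀ f : Q →* Multiplicative ℤ, Function.Surjective f → Gauge G f

/-- Transport of a grading along an isomorphism of groups. -/
def pull {Q Q' : Type} [Group Q] [Group Q'] (e : Q ≃* Q') {B : Type} [NonUnitalCStarAlgebra B]
    (G : Fib Q' B) : Fib Q B where
  fib q := G.fib (e q)
  closed q := G.closed _
  mul_mem p q x y hx hy := by rw [map_mul]; exact G.mul_mem _ _ _ _ hx hy
  star_mem q x hx := by rw [map_inv]; exact G.star_mem _ _ hx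
  dense := by
    rw [← G.dense]
    congr 1
    exact e.toEquiv.iSup_comp (g := G.fib)

theorem PP_iso (Q Q' : Type) [Group Q] [Group Q'] (e : Q ≃* Q') (h : PP Q) : PP Q' := by
  classical
  intro B _ G hT
  have hT' : (pull e G).Top := by
    intro s b hb h1
    have h := hT (s.map e.toEquiv.toEmbedding) (fun q' => b (e.symm q')) ?_ ?_
    · rw [Finset.sum_map] at h
      simpa using h
    · intro q' hq'
      rw [Finset.mem_map] at hq'
      obtain ⟨q, hq, rfl⟩ := hq'
      have := hb q hq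
      simpa [pull] using this
    · rw [Finset.mem_map]
      exact ⟨1, h1, by simp⟩
  obtain ⟨h1, h2⟩ := h B (pull e G) hT'
  refine ⟨?_, ?_⟩
  · intro E hE b hb
    refine h1 E ⟨?_, ?_, hE.2.2⟩ b hb
    · intro b hb
      refine hE.1 b ?_
      simpa [pull] using hb
    · intro q hq b hb
      refine hE.2.1 (e q) ?_ b hb
      intro h
      exact hq (by simpa using h)
  · intro f hf z
    obtain ⟨γ, hγ, hγ2⟩ := h2 (f.comp e.toMonoidHom) (hf.comp e.surjective) z
    refine ⟨γ, hγ, fun q' b hb => ?_⟩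
    have := hγ2 (e.symm q') b (by simpa [pull] using hb)
    simpa using this

/-- Packet FE. -/
theorem t_FE : S_PZI → S_FEF → S_FES → S_FE := by
  intro hPZI hFEF hFES Q _ hQ
  refine hPZI (fun Q _ => PP Q) PP_iso ?_ Q hQ
  intro Q _ hQ _ hker B _ G hT
  have hcase : Finite Q ∨ ∃ f : Q →* Multiplicative ℤ, Function.Surjective f := by
    have h := hQ.2 ⊤ ⊥
    let e : (↥(⊤ : Subgroup Q) ⧸ (⊥ : Subgroup ↥(⊤ : Subgroup Q))) ≃* Q :=
      (QuotientGroup.quotientBot).trans Subgroup.topEquiv
    rcases h with h | ⟨f, hf⟩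
    · left
      exact Finite.of_equiv _ e.toEquiv
    · right
      exact ⟨f.comp e.symm.toMonoidHom, hf.comp e.symm.surjective⟩
  have key : ∀ f : Q →* Multiplicative ℤ, Function.Surjective f → Faith G ∧ Gauge G f := by
    intro f hf
    exact hFES Q f (fun B _ G hT => (hker f hf B G hT).1) B G hT
  refine ⟨?_, fun f hf => (key f hf).2⟩
  rcases hcase with h | ⟨f, hf⟩
  · exact hFEF Q B G hT
  · exact (key f hf).1

end Pool.Agent.Helper50.Uct2
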